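import Mathlib
import Pool.Agent.H342R3.SA5

/-!
# Self-affine sets without box dimension in every dimension at least four

For every `d ≥ 4` there is a self-affine set in `ℝ^d`, with lower box dimension at least `d - 4`,
whose lower box dimension is strictly smaller than its upper box dimension. It is the product of
the set in `ℝ⁴` of the starting library with a cube.
-/

set_option autoImplicit false

open Filter Set
open scoped Topology

namespace Pool.Agent.Results.MP_9d74f4_an.EveryDimensionFromFour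

/-- The least number `N_δ(E)` of sets of diameter at most `δ` needed to cover `E ⊆ ℝ^d`. -/
noncomputable def coveringNumber {d : ℕ} (E : Set (EuclideanSpace ℝ (Fin d))) (δ : ℝ) : ℕ :=
  sInf {n : ℕ | ∃ U : Fin n → Set (EuclideanSpace ℝ (Fin d)),
    (∀ i, ∀ x ∈ U i, ∀ y ∈ U i, dist x y ≤ δ) ∧ E ⊆ ⋃ i, U i}

/-- The lower box dimension: `liminf_{δ → 0+} log N_δ(E) / (- log δ)`. -/
noncomputable def lowerBoxDim {d : ℕ} (E : Set (EuclideanSpace ℝ (Fin d))) : EReal :=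
  liminf (fun δ : ℝ => ((Real.log (coveringNumber E δ) / -Real.log δ : ℝ) : EReal)) (𝓝[>] 0)

/-- The upper box dimension: `limsup_{δ → 0+} log N_δ(E) / (- log δ)`. -/
noncomputable def upperBoxDim {d : ℕ} (E : Set (EuclideanSpace ℝ (Fin d))) : EReal :=
  limsup (fun δ : ℝ => ((Real.log (coveringNumber E δ) / -Real.log δ : ℝ) : EReal)) (𝓝[>] 0)

/-- `E ⊆ ℝ^d` is the attractor of the affine iterated function system `f_i(x) = A x + t_i`,
`i = 1, …, m`, where `m ≥ 2` and all maps have the same linear part `A`, which is diagonal,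
invertible and of operator norm less than `1`. -/
def IsDiagonalSelfAffine {d m : ℕ} (A : EuclideanSpace ℝ (Fin d) →L[ℝ] EuclideanSpace ℝ (Fin d))
    (t : Fin m → EuclideanSpace ℝ (Fin d)) (E : Set (EuclideanSpace ℝ (Fin d))) : Prop :=
  2 ≤ m ∧ (∃ a : Fin d → ℝ, ∀ x c, A x c = a c * x c) ∧ Function.Bijective A ∧ ‖A‖ < 1 ∧
    E.Nonempty ∧ IsCompact E ∧ E = ⋃ i, (fun x => A x + t i) '' E

/-! ### Covering numbers -/

variable {d : ℕ}

theorem exists_cover {E : Set (EuclideanSpace ℝ (Fin d))} (hE : IsCompact E) {δ : ℝ} (hδ : 0 < δ) :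
    {n : ℕ | ∃ U : Fin n → Set (EuclideanSpace ℝ (Fin d)),
      (∀ i, ∀ x ∈ U i, ∀ y ∈ U i, dist x y ≤ δ) ∧ E ⊆ ⋃ i, U i}.Nonempty := by
  obtain ⟨s, -, hs, hcov⟩ := hE.finite_cover_balls (half_pos hδ)
  have : Fintype s := hs.fintype
  let e := Fintype.equivFin s
  refine ⟨Fintype.card s, fun i => Metric.ball (e.symm i : EuclideanSpace ℝ (Fin d)) (δ / 2), ?_, ?_⟩
  · intro i x hx y hy
    rw [Metric.mem_ball] at hx hy
    have := dist_triangle_right x y (e.symm i : EuclideanSpace ℝ (Fin d))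
    linarith
  · intro x hx
    obtain ⟨y, hy, hxy⟩ := mem_iUnion₂.1 (hcov hx)
    refine mem_iUnion.2 ⟨e ⟨y, hy⟩, ?_⟩
    rw [Equiv.symm_apply_apply]
    exact hxy

theorem cover_spec {E : Set (EuclideanSpace ℝ (Fin d))} (hE : IsCompact E) {δ : ℝ} (hδ : 0 < δ) :
    ∃ U : Fin (coveringNumber E δ) → Set (EuclideanSpace ℝ (Fin d)),
      (∀ i, ∀ x ∈ U i, ∀ y ∈ U i, dist x y ≤ δ) ∧ E ⊆ ⋃ i, U i :=
  Nat.sInf_mem (exists_cover hE hδ)

theorem coveringNumber_le {E : Set (EuclideanSpace ℝ (Fin d))} {δ : ℝ} {Q : Type} [Fintype Q]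
    (U : Q → Set (EuclideanSpace ℝ (Fin d))) (h1 : ∀ i, ∀ x ∈ U i, ∀ y ∈ U i, dist x y ≤ δ)
    (h2 : E ⊆ ⋃ i, U i) : coveringNumber E δ ≤ Fintype.card Q := by
  apply Nat.sInf_le
  let e := Fintype.equivFin Q
  refine ⟨fun i => U (e.symm i), fun i => h1 _, fun x hx => ?_⟩
  obtain ⟨q, hq⟩ := mem_iUnion.1 (h2 hx)
  exact mem_iUnion.2 ⟨e q, by rw [Equiv.symm_apply_apply]; exact hq⟩

theorem coveringNumber_pos {E : Set (EuclideanSpace ℝ (Fin d))} (hE : IsCompact E)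
    (hne : E.Nonempty) {δ : ℝ} (hδ : 0 < δ) : 0 < coveringNumber E δ := by
  obtain ⟨U, -, hU⟩ := cover_spec hE hδ
  obtain ⟨x, hx⟩ := hne
  obtain ⟨i, -⟩ := mem_iUnion.1 (hU hx)
  exact lt_of_le_of_lt (Nat.zero_le _) i.2

/-! ### Adding a coordinate -/

/-- The last coordinates. -/
noncomputable def tl (x : EuclideanSpace ℝ (Fin (d + 1))) : EuclideanSpace ℝ (Fin d) :=
  WithLp.toLp 2 (fun i => x i.succ)

/-- Adding a first coordinate. -/
noncomputable def cn (a : ℝ) (y : EuclideanSpace ℝ (Fin d)) : EuclideanSpace ℝ (Fin (d + 1)) :=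
  WithLp.toLp 2 (Fin.cons a (fun i => y i))

theorem cn_zero (a : ℝ) (y : EuclideanSpace ℝ (Fin d)) : cn a y 0 = a := rfl

theorem tl_cn (a : ℝ) (y : EuclideanSpace ℝ (Fin d)) : tl (cn a y) = y := by
  ext i
  rfl

theorem cn_tl (x : EuclideanSpace ℝ (Fin (d + 1))) : cn (x 0) (tl x) = x := by
  ext i
  refine Fin.cases ?_ (fun i => ?_) i
  · rfl
  · rfl

theorem norm_sq_split (x : EuclideanSpace ℝ (Fin (d + 1))) : ‖x‖ ^ 2 = x 0 ^ 2 + ‖tl x‖ ^ 2 := by
  rw [EuclideanSpace.norm_sq_eq, EuclideanSpace.norm_sq_eq, Fin.sum_univ_succ, Real.norm_eq_abs,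
    sq_abs]
  rfl

theorem dist_sq_split (x y : EuclideanSpace ℝ (Fin (d + 1))) :
    dist x y ^ 2 = (x 0 - y 0) ^ 2 + dist (tl x) (tl y) ^ 2 := by
  rw [dist_eq_norm, dist_eq_norm, norm_sq_split]
  rfl

/-- The product of `E` with the unit interval. -/
def lift (E : Set (EuclideanSpace ℝ (Fin d))) : Set (EuclideanSpace ℝ (Fin (d + 1))) :=
  {x | tl x ∈ E ∧ x 0 ∈ Icc (0:ℝ) 1}

theorem continuous_cn : Continuous (fun p : ℝ × EuclideanSpace ℝ (Fin d) => cn p.1 p.2) := by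
  unfold cn
  apply (PiLp.continuous_toLp 2 _).comp
  apply continuous_pi
  intro i
  refine Fin.cases ?_ (fun i => ?_) i
  · exact continuous_fst
  · simp only [Fin.cons_succ]
    fun_prop

theorem lift_eq (E : Set (EuclideanSpace ℝ (Fin d))) :
    lift E = (fun p : ℝ × EuclideanSpace ℝ (Fin d) => cn p.1 p.2) '' (Icc (0:ℝ) 1 ×ˢ E) := by
  ext x
  constructor
  · rintro ⟨h1, h2⟩
    exact ⟨(x 0, tl x), ⟨h2, h1⟩, cn_tl x⟩
  · rintro ⟨⟨a, y⟩, ⟨h1, h2⟩, rfl⟩
    refine ⟨?_, ?_⟩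
    · show tl (cn a y) ∈ E
      rw [tl_cn]
      exact h2
    · exact h1

theorem lift_compact {E : Set (EuclideanSpace ℝ (Fin d))} (hE : IsCompact E) :
    IsCompact (lift E) := by
  rw [lift_eq]
  exact (isCompact_Icc.prod hE).image continuous_cn

theorem lift_nonempty {E : Set (EuclideanSpace ℝ (Fin d))} (hE : E.Nonempty) :
    (lift E).Nonempty := by
  obtain ⟨y, hy⟩ := hE
  exact ⟨cn 0 y, by rw [← tl_cn 0 y] at hy; exact hy, by
    show (0:ℝ) ∈ Icc (0:ℝ) 1
    constructor <;> norm_num⟩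

/-- The upper estimate. -/
theorem lift_upper {E : Set (EuclideanSpace ℝ (Fin d))} (hE : IsCompact E) {δ : ℝ} (hδ : 0 < δ) :
    coveringNumber (lift E) (2 * δ) ≤ coveringNumber E δ * ⌈1 / δ⌉₊ := by
  obtain ⟨U, hU1, hU2⟩ := cover_spec hE hδ
  set m : ℕ := ⌈1 / δ⌉₊ with hm
  have hm1 : 1 / δ ≤ m := Nat.le_ceil _
  have hmpos : (0:ℝ) < m := lt_of_lt_of_le (by positivity) hm1
  have hmδ : 1 / (m:ℝ) ≤ δ := by
    rw [div_le_iff₀ hmpos]
    rw [div_le_iff₀ hδ] at hm1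
    linarith
  have h := coveringNumber_le (E := lift E) (δ := 2 * δ) (Q := Fin (coveringNumber E δ) × Fin m)
    (fun q => {x | tl x ∈ U q.1 ∧ (q.2 : ℝ) / m ≤ x 0 ∧ x 0 ≤ ((q.2 : ℝ) + 1) / m}) ?_ ?_
  · simpa using h
  · rintro ⟨i, j⟩ x ⟨hx1, hx2, hx3⟩ y ⟨hy1, hy2, hy3⟩
    have h1 := hU1 i _ hx1 _ hy1
    have h2 : |x 0 - y 0| ≤ δ := by
      have e : ((j : ℝ) + 1) / m = (j : ℝ) / m + 1 / m := by ring
      simp only at hx2 hx3 hy2 hy3
      rw [e] at hx3 hy3
      rw [abs_le]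
      constructor <;> linarith
    have h3 := dist_sq_split x y
    have h4 : (x 0 - y 0) ^ 2 ≤ δ ^ 2 := by
      rw [← sq_abs]
      exact pow_le_pow_left₀ (abs_nonneg _) h2 2
    have h5 : dist (tl x) (tl y) ^ 2 ≤ δ ^ 2 := pow_le_pow_left₀ dist_nonneg h1 2
    apply le_of_sq_le_sq _ (by positivity)
    nlinarith
  · rintro x ⟨hx1, hx2⟩
    obtain ⟨i, hi⟩ := mem_iUnion.1 (hU2 hx1)
    rcases eq_or_lt_of_le hx2.2 with h1 | h1
    · have hm0 : 0 < m := by exact_mod_cast hmpos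
      refine mem_iUnion.2 ⟨(i, ⟨m - 1, by omega⟩), hi, ?_, ?_⟩
      · show (((m - 1 : ℕ) : ℝ)) / m ≤ x 0
        rw [h1, div_le_one hmpos]
        exact_mod_cast Nat.sub_le m 1
      · show x 0 ≤ (((m - 1 : ℕ) : ℝ) + 1) / m
        rw [h1, Nat.cast_sub (by omega), Nat.cast_one, sub_add_cancel, div_self hmpos.ne']
    · have h0 : 0 ≤ x 0 * m := mul_nonneg hx2.1 hmpos.le
      have h2 : ⌊x 0 * m⌋₊ < m := by
        rw [Nat.floor_lt h0]
        nlinarith
      refine mem_iUnion.2 ⟨(i, ⟨⌊x 0 * m⌋₊, h2⟩), hi, ?_, ?_⟩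
      · show ((⌊x 0 * m⌋₊ : ℕ) : ℝ) / m ≤ x 0
        rw [div_le_iff₀ hmpos]
        exact Nat.floor_le h0
      · show x 0 ≤ (((⌊x 0 * m⌋₊ : ℕ) : ℝ) + 1) / m
        rw [le_div_iff₀ hmpos]
        exact (Nat.lt_floor_add_one _).le

/-- The lower estimate. -/
theorem lift_lower {E : Set (EuclideanSpace ℝ (Fin d))} (hE : IsCompact E) {δ : ℝ} (hδ : 0 < δ)
    (hδ1 : δ < 1) : ⌈1 / δ⌉₊ * coveringNumber E δ ≤ coveringNumber (lift E) δ := by
  classical
  obtain ⟨U, hU1, hU2⟩ := cover_spec (lift_compact hE) hδ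
  set m : ℕ := ⌈1 / δ⌉₊ with hm
  have hm1 : 1 / δ ≤ m := Nat.le_ceil _
  have h1δ : 1 < 1 / δ := by rw [lt_div_iff₀ hδ]; linarith
  have hm2 : 1 < m := by
    have : (1:ℝ) < m := lt_of_lt_of_le h1δ hm1
    exact_mod_cast this
  have hm3 : ((m - 1 : ℕ) : ℝ) < 1 / δ := by
    have h := Nat.ceil_lt_add_one (show 0 ≤ 1 / δ by positivity)
    rw [← hm] at h
    rw [Nat.cast_sub (by omega), Nat.cast_one]
    linarith
  have hp : (0:ℝ) < ((m - 1 : ℕ) : ℝ) := by
    have : 0 < m - 1 := by omega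
    exact_mod_cast this
  have hsep : δ * ((m - 1 : ℕ) : ℝ) < 1 := by
    rw [lt_div_iff₀ hδ] at hm3
    linarith
  let y : Fin m → ℝ := fun j => (j : ℝ) / ((m - 1 : ℕ) : ℝ)
  have hy : ∀ j, y j ∈ Icc (0:ℝ) 1 := by
    intro j
    refine ⟨div_nonneg (by positivity) hp.le, ?_⟩
    show (j : ℝ) / ((m - 1 : ℕ) : ℝ) ≤ 1
    rw [div_le_one hp]
    have := j.2
    exact_mod_cast (by omega : (j : ℕ) ≤ m - 1)
  let J : Fin m → Finset (Fin (coveringNumber (lift E) δ)) := fun j =>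
    Finset.univ.filter (fun i => ∃ x ∈ U i, x 0 = y j)
  have hdisj : ∀ j ∈ (Finset.univ : Finset (Fin m)), ∀ j' ∈ (Finset.univ : Finset (Fin m)), j ≠ j' →
      Disjoint (J j) (J j') := by
    intro j _ j' _ hne
    rw [Finset.disjoint_left]
    intro i hi hi'
    obtain ⟨x, hx, hx0⟩ := (Finset.mem_filter.1 hi).2
    obtain ⟨x', hx', hx0'⟩ := (Finset.mem_filter.1 hi').2
    have h1 := hU1 i _ hx _ hx'
    have h2 : |y j - y j'| ≤ δ := by
      rw [← hx0, ← hx0']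
      apply abs_le_of_sq_le_sq _ hδ.le
      have h3 := dist_sq_split x x'
      have h4 : dist x x' ^ 2 ≤ δ ^ 2 := pow_le_pow_left₀ dist_nonneg h1 2
      have h5 : 0 ≤ dist (tl x) (tl x') ^ 2 := by positivity
      linarith
    have h3 : (1:ℝ) ≤ |(j : ℝ) - (j' : ℝ)| := by
      have : (j : ℤ) - (j' : ℤ) ≠ 0 := by
        intro h
        apply hne
        ext
        omega
      have h4 := Int.one_le_abs this
      exact_mod_cast h4
    have h4 : y j - y j' = ((j : ℝ) - (j' : ℝ)) / ((m - 1 : ℕ) : ℝ) := by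
      show (j : ℝ) / ((m - 1 : ℕ) : ℝ) - (j' : ℝ) / ((m - 1 : ℕ) : ℝ) = _
      ring
    rw [h4, abs_div, abs_of_pos hp, div_le_iff₀ hp] at h2
    linarith
  have hcard : ∀ j : Fin m, coveringNumber E δ ≤ (J j).card := by
    intro j
    have h := coveringNumber_le (E := E) (δ := δ) (Q := {i // i ∈ J j})
      (fun i => tl '' {x | x ∈ U i.1 ∧ x 0 = y j}) ?_ ?_
    · simpa using h
    · rintro i _ ⟨x, ⟨hx, hx0⟩, rfl⟩ _ ⟨x', ⟨hx', hx0'⟩, rfl⟩
      have h1 := hU1 i.1 _ hx _ hx'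
      apply le_of_sq_le_sq _ hδ.le
      have h3 := dist_sq_split x x'
      have h4 : dist x x' ^ 2 ≤ δ ^ 2 := pow_le_pow_left₀ dist_nonneg h1 2
      rw [hx0, hx0', sub_self] at h3
      linarith
    · intro z hz
      have hz' : cn (y j) z ∈ lift E := ⟨by rw [tl_cn]; exact hz, hy j⟩
      obtain ⟨i, hi⟩ := mem_iUnion.1 (hU2 hz')
      have hiJ : i ∈ J j := Finset.mem_filter.2 ⟨Finset.mem_univ _, _, hi, rfl⟩
      exact mem_iUnion.2 ⟨⟨i, hiJ⟩, _, ⟨hi, rfl⟩, tl_cn _ _⟩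
  calc m * coveringNumber E δ = ∑ _j : Fin m, coveringNumber E δ := by simp
    _ ≤ ∑ j : Fin m, (J j).card := Finset.sum_le_sum fun j _ => hcard j
    _ = (Finset.univ.biUnion J).card := (Finset.card_biUnion hdisj).symm
    _ ≤ Fintype.card (Fin (coveringNumber (lift E) δ)) := Finset.card_le_univ _
    _ = coveringNumber (lift E) δ := Fintype.card_fin _

/-! ### The iterated function system -/

theorem lift_selfAffine {m : ℕ} {A : EuclideanSpace ℝ (Fin d) →L[ℝ] EuclideanSpace ℝ (Fin d)}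
    {t : Fin m → EuclideanSpace ℝ (Fin d)} {E : Set (EuclideanSpace ℝ (Fin d))}
    (h : IsDiagonalSelfAffine A t E) :
    ∃ (m' : ℕ) (A' : EuclideanSpace ℝ (Fin (d + 1)) →L[ℝ] EuclideanSpace ℝ (Fin (d + 1)))
      (t' : Fin m' → EuclideanSpace ℝ (Fin (d + 1))), IsDiagonalSelfAffine A' t' (lift E) := by
  obtain ⟨hm, ⟨a, ha⟩, hbij, hnorm, hne, hcomp, hE⟩ := h
  let B : EuclideanSpace ℝ (Fin (d + 1)) →ₗ[ℝ] EuclideanSpace ℝ (Fin (d + 1)) :=
    { toFun := fun x => cn (1 / 2 * x 0) (A (tl x))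
      map_add' := by
        intro x y
        ext i
        refine Fin.cases ?_ (fun i => ?_) i
        · show 1 / 2 * (x 0 + y 0) = 1 / 2 * x 0 + 1 / 2 * y 0
          ring
        · show A (tl (x + y)) i = A (tl x) i + A (tl y) i
          rw [ha, ha, ha]
          show a i * (x i.succ + y i.succ) = a i * x i.succ + a i * y i.succ
          ring
      map_smul' := by
        intro c x
        ext i
        refine Fin.cases ?_ (fun i => ?_) i
        · show 1 / 2 * (c * x 0) = c * (1 / 2 * x 0)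
          ring
        · show A (tl (c • x)) i = c * A (tl x) i
          rw [ha, ha]
          show a i * (c * x i.succ) = c * (a i * x i.succ)
          ring }
  have hB : ∀ x, B x = cn (1 / 2 * x 0) (A (tl x)) := fun x => rfl
  set K : ℝ := max (1 / 2) ‖A‖ with hK
  have hK0 : 0 ≤ K := le_trans (by norm_num) (le_max_left _ _)
  have hK1 : K < 1 := max_lt (by norm_num) hnorm
  have hbound : ∀ x, ‖B x‖ ≤ K * ‖x‖ := by
    intro x
    apply le_of_sq_le_sq _ (by positivity)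
    rw [norm_sq_split, hB, cn_zero, tl_cn, mul_pow K, norm_sq_split x]
    have h1 : ‖A (tl x)‖ ≤ ‖A‖ * ‖tl x‖ := A.le_opNorm _
    have h2 : ‖A (tl x)‖ ^ 2 ≤ (‖A‖ * ‖tl x‖) ^ 2 := pow_le_pow_left₀ (norm_nonneg _) h1 2
    have h3 : ‖A‖ ^ 2 ≤ K ^ 2 := pow_le_pow_left₀ (norm_nonneg _) (le_max_right _ _) 2
    have h4 : (1 / 2 : ℝ) ^ 2 ≤ K ^ 2 := pow_le_pow_left₀ (by norm_num) (le_max_left _ _) 2
    have h5 : ‖A‖ ^ 2 * ‖tl x‖ ^ 2 ≤ K ^ 2 * ‖tl x‖ ^ 2 :=
      mul_le_mul_of_nonneg_right h3 (by positivity)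
    have h6 : (1 / 2 : ℝ) ^ 2 * x 0 ^ 2 ≤ K ^ 2 * x 0 ^ 2 :=
      mul_le_mul_of_nonneg_right h4 (by positivity)
    rw [mul_pow] at h2 ⊢
    linarith
  let A' : EuclideanSpace ℝ (Fin (d + 1)) →L[ℝ] EuclideanSpace ℝ (Fin (d + 1)) :=
    B.mkContinuous K hbound
  have hA' : ∀ x, A' x = cn (1 / 2 * x 0) (A (tl x)) := fun x => rfl
  let t' : Fin (m * 2) → EuclideanSpace ℝ (Fin (d + 1)) := fun q =>
    cn (((finProdFinEquiv.symm q).2 : ℝ) / 2) (t (finProdFinEquiv.symm q).1)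
  refine ⟨m * 2, A', t', by omega, ⟨Fin.cons (1 / 2) a, ?_⟩, ⟨?_, ?_⟩, ?_, lift_nonempty hne,
    lift_compact hcomp, ?_⟩
  · intro x i
    refine Fin.cases ?_ (fun i => ?_) i
    · show 1 / 2 * x 0 = 1 / 2 * x 0
      rfl
    · show A (tl x) i = a i * x i.succ
      rw [ha]
      rfl
  · intro x y hxy
    rw [hA', hA'] at hxy
    have h1 : tl x = tl y := by
      have := congrArg tl hxy
      rw [tl_cn, tl_cn] at this
      exact hbij.1 this
    have h2 : x 0 = y 0 := by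
      have h3 : 1 / 2 * x 0 = 1 / 2 * y 0 := congrArg (fun z : EuclideanSpace ℝ (Fin (d+1)) => z 0) hxy
      linarith
    rw [← cn_tl x, ← cn_tl y, h1, h2]
  · intro z
    obtain ⟨y, hy⟩ := hbij.2 (tl z)
    refine ⟨cn (2 * z 0) y, ?_⟩
    rw [hA', cn_zero, tl_cn, hy]
    have : 1 / 2 * (2 * z 0) = z 0 := by ring
    rw [this, cn_tl]
  · exact lt_of_le_of_lt (B.mkContinuous_norm_le hK0 hbound) hK1
  · have hadd : ∀ (a b : ℝ) (y z : EuclideanSpace ℝ (Fin d)), cn a y + cn b z = cn (a + b) (y + z) := by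
      intro a b y z
      ext i
      refine Fin.cases ?_ (fun i => ?_) i
      · rfl
      · rfl
    ext x
    constructor
    · rintro ⟨hx1, hx2⟩
      rw [hE] at hx1
      obtain ⟨i, y, hy, hyx⟩ := mem_iUnion.1 hx1
      simp only at hyx
      by_cases hc : x 0 ≤ 1 / 2
      · refine mem_iUnion.2 ⟨finProdFinEquiv (i, 0), cn (2 * x 0) y, ⟨by rw [tl_cn]; exact hy, ?_⟩, ?_⟩
        · rw [cn_zero]
          constructor <;> linarith [hx2.1, hx2.2]
        · show A' (cn (2 * x 0) y) + t' (finProdFinEquiv (i, 0)) = x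
          rw [hA', cn_zero, tl_cn]
          show _ + cn ((((finProdFinEquiv.symm (finProdFinEquiv (i, (0 : Fin 2)))).2 : ℕ) : ℝ) / 2)
            (t (finProdFinEquiv.symm (finProdFinEquiv (i, (0 : Fin 2)))).1) = x
          rw [Equiv.symm_apply_apply, hadd, hyx]
          have : 1 / 2 * (2 * x 0) + (((0 : Fin 2) : ℕ) : ℝ) / 2 = x 0 := by
            simp
          rw [this, cn_tl]
      · refine mem_iUnion.2 ⟨finProdFinEquiv (i, 1), cn (2 * x 0 - 1) y, ⟨by rw [tl_cn]; exact hy, ?_⟩, ?_⟩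
        · rw [cn_zero]
          constructor <;> linarith [hx2.1, hx2.2]
        · show A' (cn (2 * x 0 - 1) y) + t' (finProdFinEquiv (i, 1)) = x
          rw [hA', cn_zero, tl_cn]
          show _ + cn ((((finProdFinEquiv.symm (finProdFinEquiv (i, (1 : Fin 2)))).2 : ℕ) : ℝ) / 2)
            (t (finProdFinEquiv.symm (finProdFinEquiv (i, (1 : Fin 2)))).1) = x
          rw [Equiv.symm_apply_apply, hadd, hyx]
          have : 1 / 2 * (2 * x 0 - 1) + (((1 : Fin 2) : ℕ) : ℝ) / 2 = x 0 := by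
            simp
            ring
          rw [this, cn_tl]
    · intro hx
      obtain ⟨q, y, ⟨hy1, hy2⟩, hyx⟩ := mem_iUnion.1 hx
      have hyx' : A' y + t' q = x := hyx
      obtain ⟨⟨i, s⟩, rfl⟩ := finProdFinEquiv.surjective q
      have ht' : t' (finProdFinEquiv (i, s)) = cn ((s : ℝ) / 2) (t i) := by
        show cn ((((finProdFinEquiv.symm (finProdFinEquiv (i, s))).2 : ℕ) : ℝ) / 2)
            (t (finProdFinEquiv.symm (finProdFinEquiv (i, s))).1) = _
        rw [Equiv.symm_apply_apply]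
      rw [ht', hA', hadd] at hyx'
      rw [← hyx']
      refine ⟨?_, ?_⟩
      · rw [tl_cn, hE]
        exact mem_iUnion.2 ⟨i, tl y, hy1, rfl⟩
      · rw [cn_zero]
        have hs : (s : ℝ) ≤ 1 := by
          have := s.2
          exact_mod_cast (by omega : (s : ℕ) ≤ 1)
        have hs0 : (0:ℝ) ≤ (s : ℝ) := by positivity
        constructor <;> linarith [hy2.1, hy2.2]

/-! ### The dimensions -/

/-- The quotient `log N_δ(E) / (- log δ)`. -/
noncomputable def rt (E : Set (EuclideanSpace ℝ (Fin d))) (δ : ℝ) : ℝ :=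
  Real.log (coveringNumber E δ) / -Real.log δ

theorem rt_lower {E : Set (EuclideanSpace ℝ (Fin d))} (hE : IsCompact E) (hne : E.Nonempty)
    {δ : ℝ} (hδ : 0 < δ) (hδ1 : δ < 1) : rt E δ + 1 ≤ rt (lift E) δ := by
  have hL : 0 < -Real.log δ := by
    have := Real.log_neg hδ hδ1
    linarith
  have h1 := lift_lower hE hδ hδ1
  have h2 : (0:ℝ) < coveringNumber E δ := by exact_mod_cast coveringNumber_pos hE hne hδ
  have h3 : 1 / δ * (coveringNumber E δ : ℝ) ≤ coveringNumber (lift E) δ := by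
    refine le_trans (mul_le_mul_of_nonneg_right (Nat.le_ceil (1 / δ)) h2.le) ?_
    exact_mod_cast h1
  have h4 : Real.log (1 / δ * (coveringNumber E δ : ℝ)) ≤ Real.log (coveringNumber (lift E) δ) :=
    Real.log_le_log (by positivity) h3
  rw [Real.log_mul (by positivity) h2.ne', one_div, Real.log_inv] at h4
  unfold rt
  rw [le_div_iff₀ hL, add_mul, div_mul_cancel₀ _ hL.ne']
  linarith

theorem rt_upper {E : Set (EuclideanSpace ℝ (Fin d))} (hE : IsCompact E) (hne : E.Nonempty)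
    {al ε δ : ℝ} (hδ : 0 < δ) (hδ1 : δ < 1 / 2)
    (hsmall : Real.log 2 * (al + 2 + ε) ≤ ε * -Real.log δ) (h : rt E δ ≤ al) :
    rt (lift E) (2 * δ) ≤ al + 1 + ε := by
  have h2 : 0 < Real.log 2 := Real.log_pos (by norm_num)
  have hL2 : 0 < -Real.log (2 * δ) := by
    have := Real.log_neg (show 0 < 2 * δ by positivity) (by linarith)
    linarith
  have e2 : Real.log (2 * δ) = Real.log 2 + Real.log δ := Real.log_mul (by norm_num) hδ.ne'
  have hL : 0 < -Real.log δ := by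
    rw [e2] at hL2
    linarith
  have h1 := lift_upper hE hδ
  have h3 : (0:ℝ) < coveringNumber E δ := by exact_mod_cast coveringNumber_pos hE hne hδ
  have h3' : (0:ℝ) < coveringNumber (lift E) (2 * δ) := by
    exact_mod_cast coveringNumber_pos (lift_compact hE) (lift_nonempty hne) (by positivity)
  have hceil : ((⌈1 / δ⌉₊ : ℕ) : ℝ) ≤ 2 / δ := by
    have h4 := (Nat.ceil_lt_add_one (show 0 ≤ 1 / δ by positivity)).le
    refine h4.trans ?_
    have h5 : 1 ≤ 1 / δ := by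
      rw [le_div_iff₀ hδ]
      linarith
    have h6 : 2 / δ = 1 / δ + 1 / δ := by ring
    rw [h6]
    linarith
  have h4 : (coveringNumber (lift E) (2 * δ) : ℝ) ≤ coveringNumber E δ * (2 / δ) := by
    have h5 : (coveringNumber (lift E) (2 * δ) : ℝ) ≤ coveringNumber E δ * ((⌈1 / δ⌉₊ : ℕ) : ℝ) := by
      exact_mod_cast h1
    exact h5.trans (mul_le_mul_of_nonneg_left hceil h3.le)
  have h5 := Real.log_le_log h3' h4
  rw [Real.log_mul h3.ne' (by positivity), Real.log_div (by norm_num) hδ.ne'] at h5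
  unfold rt at h ⊢
  rw [div_le_iff₀ hL] at h
  rw [div_le_iff₀ hL2, e2]
  nlinarith

/-- There is a diagonal self-affine set in `ℝ^d` whose quotients `log N_δ / (- log δ)` are
eventually at least `k`, and are infinitely often below `al` and infinitely often above `be`, for
some `al < be`. -/
def Good (d : ℕ) (k : ℝ) : Prop :=
  ∃ (m : ℕ) (A : EuclideanSpace ℝ (Fin d) →L[ℝ] EuclideanSpace ℝ (Fin d))
    (t : Fin m → EuclideanSpace ℝ (Fin d)) (E : Set (EuclideanSpace ℝ (Fin d))) (al be : ℝ),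
    IsDiagonalSelfAffine A t E ∧ al < be ∧ (∃ᶠ δ in 𝓝[>] (0:ℝ), rt E δ ≤ al) ∧
      (∃ᶠ δ in 𝓝[>] (0:ℝ), be ≤ rt E δ) ∧ ∀ᶠ δ in 𝓝[>] (0:ℝ), k ≤ rt E δ

theorem good_succ {d : ℕ} {k : ℝ} (h : Good d k) : Good (d + 1) (k + 1) := by
  obtain ⟨m, A, t, E, al, be, hA, hab, h1, h2, h3⟩ := h
  obtain ⟨m', A', t', hA'⟩ := lift_selfAffine hA
  have hne := hA.2.2.2.2.1
  have hcomp := hA.2.2.2.2.2.1
  set ε : ℝ := (be - al) / 2 with hε
  have hε0 : 0 < ε := by rw [hε]; linarith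
  have ev0 : ∀ᶠ δ in 𝓝[>] (0:ℝ), 0 < δ := eventually_mem_nhdsWithin
  have ev1 : ∀ᶠ δ in 𝓝[>] (0:ℝ), δ < 1 / 2 :=
    eventually_nhdsWithin_of_eventually_nhds (eventually_lt_nhds (by norm_num))
  have ev2 : ∀ᶠ δ in 𝓝[>] (0:ℝ), Real.log 2 * (al + 2 + ε) ≤ ε * -Real.log δ := by
    have ht : Tendsto (fun δ : ℝ => ε * -Real.log δ) (𝓝[>] 0) atTop :=
      (tendsto_neg_atBot_atTop.comp Real.tendsto_log_nhdsGT_zero).const_mul_atTop hε0
    exact ht.eventually_ge_atTop _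
  refine ⟨m', A', t', lift E, al + 1 + ε, be + 1, hA', by rw [hε]; linarith, ?_, ?_, ?_⟩
  · have ht : Tendsto (fun δ : ℝ => 2 * δ) (𝓝[>] 0) (𝓝[>] 0) := by
      rw [tendsto_nhdsWithin_iff]
      constructor
      · have : Tendsto (fun δ : ℝ => 2 * δ) (𝓝 0) (𝓝 (2 * 0)) := by
          exact (continuous_const.mul continuous_id).tendsto 0
        rw [mul_zero] at this
        exact this.mono_left nhdsWithin_le_nhds
      · filter_upwards [ev0] with δ hδ
        show 0 < 2 * δ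
        positivity
    apply ht.frequently
    apply (h1.and_eventually (ev0.and (ev1.and ev2))).mono
    rintro δ ⟨c1, c2, c3, c4⟩
    exact rt_upper hcomp hne c2 c3 c4 c1
  · apply (h2.and_eventually (ev0.and ev1)).mono
    rintro δ ⟨c1, c2, c3⟩
    have := rt_lower hcomp hne c2 (by linarith)
    linarith
  · filter_upwards [h3, ev0, ev1] with δ c1 c2 c3
    have := rt_lower hcomp hne c2 (by linarith)
    linarith

theorem good_four : Good 4 0 := by
  classical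
  let e := Fintype.equivFin H342R3.SA.S
  refine ⟨Fintype.card H342R3.SA.S, H342R3.SA.A,
    fun i => H342R3.SA.tr (H342R3.SA.D H342R3.SA.u) (e.symm i),
    Set.range (H342R3.SA.Phi (H342R3.SA.D H342R3.SA.u)), H342R3.SA.al, H342R3.SA.be,
    ⟨?_, ⟨H342R3.SA.rat, fun x c => rfl⟩,
      H342R3.SA.A_bij, H342R3.SA.A_norm, ⟨_, ⟨fun _ => Sum.inr 0, rfl⟩⟩,
      H342R3.SA.K_compact _, ?_⟩, H342R3.SA.al_lt_be, H342R3.SA.freq_low, H342R3.SA.freq_high, ?_⟩
  · have : Fintype.card H342R3.SA.S = 8 * (2 * 511) + 63 := by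
      simp [H342R3.SA.S]
    rw [this]; norm_num
  · have h := H342R3.SA.K_eq (H342R3.SA.D H342R3.SA.u)
    refine h.trans ?_
    ext x
    rw [Set.mem_iUnion, Set.mem_iUnion]
    constructor
    · rintro ⟨i, hi⟩
      refine ⟨e i, ?_⟩
      simpa using hi
    · rintro ⟨i, hi⟩
      exact ⟨e.symm i, hi⟩
  · have ev0 : ∀ᶠ δ in 𝓝[>] (0:ℝ), 0 < δ := eventually_mem_nhdsWithin
    have ev1 : ∀ᶠ δ in 𝓝[>] (0:ℝ), δ < 1 :=
      eventually_nhdsWithin_of_eventually_nhds (eventually_lt_nhds (by norm_num))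
    filter_upwards [ev0, ev1] with δ c0 c1
    unfold rt
    apply div_nonneg (Real.log_natCast_nonneg _)
    have := Real.log_neg c0 c1
    linarith

/-- For every `d ≥ 4` there is a self-affine set `E` in `ℝ^d` whose lower box dimension is strictly
smaller than its upper box dimension; moreover the lower box dimension is at least `d - 4`. All maps
of the system can be taken with the same diagonal linear part. -/
theorem result (d : ℕ) (hd : 4 ≤ d) :
    ∃ (m : ℕ) (A : EuclideanSpace ℝ (Fin d) →L[ℝ] EuclideanSpace ℝ (Fin d))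
      (t : Fin m → EuclideanSpace ℝ (Fin d)) (E : Set (EuclideanSpace ℝ (Fin d))),
      IsDiagonalSelfAffine A t E ∧ (((d : ℝ) - 4 : ℝ) : EReal) ≤ lowerBoxDim E ∧
        lowerBoxDim E < upperBoxDim E := by
  have hg : ∀ n : ℕ, Good (4 + n) n := by
    intro n
    induction n with
    | zero => simpa using good_four
    | succ n ih =>
      have := good_succ ih
      rw [Nat.cast_succ]
      exact this
  obtain ⟨n, rfl⟩ := Nat.exists_eq_add_of_le hd
  obtain ⟨m, A, t, E, al, be, hA, hab, h1, h2, h3⟩ := hg n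
  have b1 : lowerBoxDim E ≤ (al : EReal) :=
    liminf_le_of_frequently_le' (h1.mono (fun δ h => by exact_mod_cast h))
  have b2 : (be : EReal) ≤ upperBoxDim E :=
    le_limsup_of_frequently_le' (h2.mono (fun δ h => by exact_mod_cast h))
  refine ⟨m, A, t, E, hA, ?_, lt_of_le_of_lt b1 (lt_of_lt_of_le (by exact_mod_cast hab) b2)⟩
  have e : ((4 + n : ℕ) : ℝ) - 4 = n := by
    push_cast
    ring
  rw [e]
  exact le_liminf_of_le (h := h3.mono (fun δ h => by exact_mod_cast h))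

end Pool.Agent.Results.MP_9d74f4_an.EveryDimensionFromFour
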